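import Pool.Agent.H902R2.HO.Stubs2

/-!
ROOM HO (helper902): assembly of the compactness argument.
-/

open Topology

namespace H902HO

theorem two_zero {a b c d e f g h i : ℝ}
    (H : 0 = a ^ 2 + b ^ 2 + c ^ 2 + d ^ 2 + e ^ 2 + f ^ 2 + g ^ 2 + h ^ 2 + i ^ 2) :
    a = 0 ∧ b = 0 := by
  constructor
  · have : a ^ 2 = 0 := by
      nlinarith [sq_nonneg a, sq_nonneg b, sq_nonneg c, sq_nonneg d, sq_nonneg e, sq_nonneg f,
        sq_nonneg g, sq_nonneg h, sq_nonneg i]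
    simpa using this
  · have : b ^ 2 = 0 := by
      nlinarith [sq_nonneg a, sq_nonneg b, sq_nonneg c, sq_nonneg d, sq_nonneg e, sq_nonneg f,
        sq_nonneg g, sq_nonneg h, sq_nonneg i]
    simpa using this

theorem goal_of (hID3 : St_ID3) (hFR2 : St_FR2) (hCH : St_CH) (hLOC : St_LOC) (hHPOS : St_HPOS)
    (hBIG : St_BIG) (hOFF0 : St_OFF0) (hOFF1 : St_OFF1) : St_GOAL := by
  obtain ⟨μ₁, κ, hμ₁, hμ₁1, hκ, hH⟩ := hHPOS
  obtain ⟨G, η, hG, hη, hbig⟩ := hBIG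
  obtain ⟨C0, hC0, hloc0⟩ := hLOC 0 le_rfl
  -- positivity near the zero set
  have near : ∀ (Lam C : ℝ), 0 < C → (∀ (μ lam : ℝ) (x1 x2 x3 : T ℝ)
      (c s o1 o2 r k g1 g2 g3 g4 e t : ℝ), 0 ≤ μ → μ ≤ 1 → 0 ≤ lam → lam ≤ Lam →
      IsFrame x1 x2 x3 → c ^ 2 + s ^ 2 = 1 →
      o1 ^ 2 + o2 ^ 2 + r ^ 2 + k ^ 2 + g1 ^ 2 + g2 ^ 2 + g3 ^ 2 + g4 ^ 2 + e ^ 2 = 1 →
      0 ≤ t → t ≤ 1 →
      |FPc μ (e * t) (lam * (e * t) ^ 2) x1 x2 x3 c s (o1 * t) (o2 * t) (r * t) (k * t)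
        (g1 * t) (g2 * t) (g3 * t) (g4 * t) -
        t ^ 2 * Hc μ lam x1 x2 x3 c s o1 o2 r k g1 g2 g3 g4 e| ≤ C * t ^ 3) →
      ∀ (μ lam ε : ℝ) (d : DD), 0 ≤ μ → μ ≤ μ₁ → 0 ≤ lam → lam ≤ Lam →
      (lam * ε ^ 2 = 1 / 128 / μ ^ 2 * ε ^ 2 ∧ 0 < μ ∨ ε = 0) → 0 ≤ ε → IsPl d →
      0 < dist0 d + ε ^ 2 → dist0 d + ε ^ 2 < min (1 / 2) ((κ / C) ^ 2) →
      0 < FD μ ε (lam * ε ^ 2) d := by
    intro Lam C hC hloc μ lam ε d hμ0 hμ hl0 hl hle hε hd hpos hlt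
    have hlt1 : dist0 d + ε ^ 2 < 1 / 2 := hlt.trans_le (min_le_left _ _)
    have hlt2 : dist0 d + ε ^ 2 < (κ / C) ^ 2 := hlt.trans_le (min_le_right _ _)
    have hgg : 0 ≤ gg d := by unfold gg; positivity
    have hy3 : T.dot (dy3 d) (dy3 d) = 1 := by
      have h11 := hd.fy.d11
      have h22 := hd.fy.d22
      have h12 := hd.fy.d12
      simp only [T.dot, dy3, T.cr, dy1, dy2] at *
      linear_combination (d 9 ^ 2 + d 10 ^ 2 + d 11 ^ 2) * h11 + h22 -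
        (d 6 * d 9 + d 7 * d 10 + d 8 * d 11) * h12
    have hz1 : (dy3 d).z ^ 2 ≤ 1 := by
      simp only [T.dot] at hy3
      nlinarith [sq_nonneg (dy3 d).x, sq_nonneg (dy3 d).y]
    have hzpos : 0 < (dy3 d).z := by
      rcases hd.hz.lt_or_eq with h | h
      · exact h
      · exfalso
        have h2 : dist0 d ≥ 2 := by
          unfold dist0
          rw [← h]
          nlinarith [sq_nonneg (d 13), sq_nonneg (d 15)]
        nlinarith [sq_nonneg ε]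
    obtain ⟨c, s, o1, o2, hcs, ho1, ho2, e1, e2, e3⟩ := hCH _ _ _ hd.fy hzpos
    set S : ℝ := o1 ^ 2 + o2 ^ 2 + d 13 ^ 2 + d 15 ^ 2 + d 16 ^ 2 + d 17 ^ 2 + d 18 ^ 2 +
      d 19 ^ 2 + ε ^ 2 with hS
    have hSle : S ≤ dist0 d + ε ^ 2 := by
      rw [hS]; unfold dist0 gg; linarith
    have hS0 : 0 ≤ S := by positivity
    have hSpos : 0 < S := by
      rcases hS0.lt_or_eq with h | h
      · exact h
      · exfalso
        obtain ⟨ho1', ho2'⟩ := two_zero h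
        have hz : (dy3 d).z = 1 := by
          rw [e3, ho1', ho2']
          simp [cy3]
        have : dist0 d + ε ^ 2 = S := by
          unfold dist0 gg
          rw [hz, hS, ho1', ho2']
          ring
        linarith
    -- the scaling
    set t : ℝ := √S with ht
    have ht0 : 0 < t := Real.sqrt_pos.2 hSpos
    have ht2 : t ^ 2 = S := Real.sq_sqrt hS0
    have htne : t ≠ 0 := ht0.ne'
    have ht1 : t ≤ 1 := by
      have : t ^ 2 ≤ 1 := by rw [ht2]; linarith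
      exact (sq_le_one_iff₀ ht0.le).1 this
    have htκ : t < κ / C := by
      have h : t ^ 2 < (κ / C) ^ 2 := by rw [ht2]; linarith
      exact lt_of_pow_lt_pow_left₀ 2 (by positivity) h
    have hdir : (o1 / t) ^ 2 + (o2 / t) ^ 2 + (d 13 / t) ^ 2 + (d 15 / t) ^ 2 + (d 16 / t) ^ 2 +
        (d 17 / t) ^ 2 + (d 18 / t) ^ 2 + (d 19 / t) ^ 2 + (ε / t) ^ 2 = 1 := by
      simp only [div_pow]
      rw [ht2]
      field_simp
      rw [hS]
    have hca : d 12 = √(1 - d 13 ^ 2) := by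
      rw [← hd.ha, add_sub_cancel_right, Real.sqrt_sq hd.ca0]
    have hcb : d 14 = √(1 - d 15 ^ 2) := by
      rw [← hd.hb, add_sub_cancel_right, Real.sqrt_sq hd.cb0]
    have hL := hloc μ lam (dx1 d) (dx2 d) (dx3 d) c s (o1 / t) (o2 / t) (d 13 / t) (d 15 / t)
      (d 16 / t) (d 17 / t) (d 18 / t) (d 19 / t) (ε / t) t hμ0 (hμ.trans hμ₁1) hl0 hl hd.fx hcs
      hdir ht0.le ht1
    simp only [div_mul_cancel₀ _ htne] at hL
    have hFD : FD μ ε (lam * ε ^ 2) d = FPc μ ε (lam * ε ^ 2) (dx1 d) (dx2 d) (dx3 d) c s o1 o2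
        (d 13) (d 15) (d 16) (d 17) (d 18) (d 19) := by
      unfold FD FP FPc PPc
      rw [← e1, ← e2, ← e3, ← hca, ← hcb]
    have hHc : κ ≤ Hc μ lam (dx1 d) (dx2 d) (dx3 d) c s (o1 / t) (o2 / t) (d 13 / t) (d 15 / t)
      (d 16 / t) (d 17 / t) (d 18 / t) (d 19 / t) (ε / t) := by
      have h1 := hH μ (dx1 d) (dx2 d) (dx3 d) c s (o1 / t) (o2 / t) (d 13 / t) (d 15 / t)
        (d 16 / t) (d 17 / t) (d 18 / t) (d 19 / t) (ε / t) hμ0 hμ hd.fx hcs hdir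
      refine h1.trans (le_of_eq ?_)
      unfold Hc
      rw [hID3 _ _ _ lam c s _ _ _ _ _ _ _ _ _ hcs, hFR2 μ _ _ _ hd.fx]
      congr 1
      rcases hle with ⟨h, hμpos⟩ | h
      · have h3 : lam * (ε / t) ^ 2 = 1 / 128 / μ ^ 2 * (ε / t) ^ 2 := by
          rw [div_pow, ← mul_div_assoc, h, mul_div_assoc]
        rw [h3]
        unfold GG
        field_simp
      · rw [h]
        simp
    rw [hFD]
    have h5 := (abs_le.1 hL).1
    have h6 : C * t ^ 3 < t ^ 2 * κ := by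
      have : C * t < κ := by rwa [lt_div_iff₀ hC, mul_comm] at htκ
      calc C * t ^ 3 = t ^ 2 * (C * t) := by ring
        _ < t ^ 2 * κ := mul_lt_mul_of_pos_left this (pow_pos ht0 2)
    have h7 : t ^ 2 * κ ≤ t ^ 2 * Hc μ lam (dx1 d) (dx2 d) (dx3 d) c s (o1 / t) (o2 / t)
      (d 13 / t) (d 15 / t) (d 16 / t) (d 17 / t) (d 18 / t) (d 19 / t) (ε / t) :=
      mul_le_mul_of_nonneg_left hHc (sq_nonneg t)
    linarith
  -- the number μ₀
  set ρ0 : ℝ := min (1 / 2) ((κ / C0) ^ 2) with hρ0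
  have hρ0p : 0 < ρ0 := lt_min (by norm_num) (by positivity)
  obtain ⟨μ₂, hμ₂, hoff0⟩ := hOFF0 G ρ0 hρ0p
  refine ⟨min μ₁ (min η μ₂), lt_min hμ₁ (lt_min hη hμ₂), fun μ hμ hμle => ?_⟩
  have m1 : μ ≤ μ₁ := hμle.trans (min_le_left _ _)
  have m2 : μ ≤ η := hμle.trans ((min_le_right _ _).trans (min_le_left _ _))
  have m3 : μ ≤ μ₂ := hμle.trans ((min_le_right _ _).trans (min_le_right _ _))
  -- positivity for ε = 0 off the zero set
  have star : ∀ ρ : ℝ, 0 < ρ → ∀ d : DD, IsPl d → gg d ≤ G → ρ ≤ dist0 d → 0 < FD μ 0 0 d := by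
    intro ρ hρ d hd hg hdist
    by_cases h : ρ0 ≤ dist0 d
    · exact hoff0 μ hμ.le m3 d hd hg h
    · have h' := near 0 C0 hC0 hloc0 μ 0 0 d hμ.le m1 le_rfl le_rfl (Or.inr rfl) le_rfl hd
        (by simpa using hρ.trans_le hdist) (by
          have h9 := not_le.1 h
          have h8 : dist0 d + (0 : ℝ) ^ 2 = dist0 d := by ring
          rw [h8]
          exact h9)
      simpa using h'
  -- the number ε₀
  set lam : ℝ := 1 / 128 / μ ^ 2 with hlam
  have hlam0 : 0 < lam := by positivity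
  obtain ⟨C1, hC1, hloc1⟩ := hLOC lam hlam0.le
  set ρ1 : ℝ := min (1 / 2) ((κ / C1) ^ 2) with hρ1
  have hρ1p : 0 < ρ1 := lt_min (by norm_num) (by positivity)
  obtain ⟨ε₁, hε₁, hoff1⟩ := hOFF1 G (ρ1 / 2) μ lam (star (ρ1 / 2) (by positivity))
  obtain ⟨ε₂, hε₂, hε₂η, hε₂l, hε₂ρ⟩ : ∃ ε₂ : ℝ, 0 < ε₂ ∧ ε₂ ≤ η ∧ lam * ε₂ ^ 2 ≤ η ∧
      ε₂ ^ 2 < ρ1 / 2 := by
    refine ⟨min 1 (min η (min (η / lam) (ρ1 / 4))), ?_, ?_, ?_, ?_⟩
    · exact lt_min one_pos (lt_min hη (lt_min (by positivity) (by positivity)))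
    · exact (min_le_right _ _).trans (min_le_left _ _)
    · set m := min 1 (min η (min (η / lam) (ρ1 / 4))) with hm
      have hm0 : 0 ≤ m := (lt_min one_pos (lt_min hη (lt_min (by positivity) (by positivity)))).le
      have hm1 : m ≤ 1 := min_le_left _ _
      have hm2 : m ≤ η / lam :=
        (min_le_right _ _).trans ((min_le_right _ _).trans (min_le_left _ _))
      have h1 : m ^ 2 ≤ η / lam := by nlinarith
      calc lam * m ^ 2 ≤ lam * (η / lam) := mul_le_mul_of_nonneg_left h1 hlam0.le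
        _ = η := by field_simp
    · set m := min 1 (min η (min (η / lam) (ρ1 / 4))) with hm
      have hm0 : 0 ≤ m := (lt_min one_pos (lt_min hη (lt_min (by positivity) (by positivity)))).le
      have hm1 : m ≤ 1 := min_le_left _ _
      have hm2 : m ≤ ρ1 / 4 :=
        (min_le_right _ _).trans ((min_le_right _ _).trans (min_le_right _ _))
      nlinarith
  refine ⟨min ε₁ ε₂, lt_min hε₁ hε₂, fun ε hε hεle x1 x2 x3 y1 y2 y3 ca sa cb sb g1 g2 g3 g4
    hX hY ha hb hca hcb hs hz => ?_⟩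
  have n1 : ε ≤ ε₁ := hεle.trans (min_le_left _ _)
  have n2 : ε ≤ ε₂ := hεle.trans (min_le_right _ _)
  have n3 : ε ^ 2 ≤ ε₂ ^ 2 := pow_le_pow_left₀ hε.le n2 2
  -- encode
  set d : DD := ![x1.x, x1.y, x1.z, x2.x, x2.y, x2.z, y1.x, y1.y, y1.z, y2.x, y2.y, y2.z,
    ca, sa, cb, sb, g1, g2, g3, g4] with hdd
  have q1 : dx1 d = x1 := rfl
  have q2 : dx2 d = x2 := rfl
  have q3 : dx3 d = x3 := hX.cr
  have q4 : dy1 d = y1 := rfl
  have q5 : dy2 d = y2 := rfl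
  have q6 : dy3 d = y3 := hY.cr
  have hd : IsPl d := by
    refine ⟨?_, ?_, ha, hb, hca, hcb, hs, ?_⟩
    · rw [q1, q2, q3]; exact hX
    · rw [q4, q5, q6]; exact hY
    · rw [q6]; exact hz
  have hfin : 0 < FD μ ε (lam * ε ^ 2) d := by
    by_cases hg : G ≤ gg d
    · refine hbig μ ε _ d hμ.le m2 hε.le (n2.trans hε₂η) (by positivity) ?_ hd hg
      exact (mul_le_mul_of_nonneg_left n3 hlam0.le).trans hε₂l
    · have hg' : gg d ≤ G := (not_le.1 hg).le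
      by_cases hdist : ρ1 / 2 ≤ dist0 d
      · exact hoff1 ε hε.le n1 d hd hg' hdist
      · have hd0 : 0 ≤ dist0 d := by
          have hy3 : T.dot (dy3 d) (dy3 d) = 1 := by
            have h11 := hd.fy.d11
            have h22 := hd.fy.d22
            have h12 := hd.fy.d12
            simp only [T.dot, dy3, T.cr, dy1, dy2] at *
            linear_combination (d 9 ^ 2 + d 10 ^ 2 + d 11 ^ 2) * h11 + h22 -
              (d 6 * d 9 + d 7 * d 10 + d 8 * d 11) * h12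
          have hz1 : (dy3 d).z ^ 2 ≤ 1 := by
            simp only [T.dot] at hy3
            nlinarith [sq_nonneg (dy3 d).x, sq_nonneg (dy3 d).y]
          have hgg : 0 ≤ gg d := by unfold gg; positivity
          unfold dist0
          nlinarith [sq_nonneg (d 13), sq_nonneg (d 15)]
        refine near lam C1 hC1 hloc1 μ lam ε d hμ.le m1 hlam0.le le_rfl (Or.inl ⟨rfl, hμ⟩) hε.le
          hd (by positivity) ?_
        have := not_le.1 hdist
        rw [← hρ1]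
        linarith
  have : FD μ ε (lam * ε ^ 2) d = FP μ ε (lam * ε ^ 2) x1 x2 x3 y1 y2 y3 ca sa cb sb g1 g2 g3 g4 := by
    unfold FD
    rw [q1, q2, q3, q4, q5, q6]
    rfl
  rw [this] at hfin
  exact hfin

end H902HO
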