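import Pool.Agent.H902R2.HO.Stubs2

/-!
ROOM HO (helper902): positivity for large `γ'`.
-/

open Topology

namespace H902HO

/-- the γ part of the curvature polynomial -/
def tailP (O : Ops ℝ (T ℝ)) (e l : ℝ) (z b1 b2 γ : T ℝ × T ℝ) : ℝ :=
  three (pr O (J O z γ) (K O e l z (J O z γ)) - two (pr O γ b1 - pr O γ b2))

/-- the rest -/
def headP (O : Ops ℝ (T ℝ)) (e l : ℝ) (z a b : T ℝ × T ℝ) : ℝ :=
  two (F2 O e l b b z (Wz O e l z a) (Wz O e l z a) (W1 O e l z (Wz O e l z a) a) +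
      F2 O e l a a z (Wz O e l z b) (Wz O e l z b) (W1 O e l z (Wz O e l z b) b) -
      (F2 O e l a b z (Wz O e l z b) (Wz O e l z a) (W1 O e l z (Wz O e l z a) b) +
      F2 O e l a b z (Wz O e l z a) (Wz O e l z b) (W1 O e l z (Wz O e l z b) a))) +
    (pr O (J O z (grad O e l a b z)) (K O e l z (J O z (grad O e l a b z))) -
      pr O (J O z (grad O e l a a z)) (K O e l z (J O z (grad O e l b b z))))

theorem PP_eq_tail (O : Ops ℝ (T ℝ)) (e l : ℝ) (z a b γ : T ℝ × T ℝ) :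
    PP O e l z a b γ = headP O e l z a b +
      tailP O e l z (W1 O e l z (Wz O e l z a) b) (W1 O e l z (Wz O e l z b) a) γ := rfl

/-- the quadratic form in momenta -/
def NN (w q : Sym ℝ) (v : T ℝ) (e l : ℝ) (p m : T ℝ) : ℝ :=
  T.dot p p + T.dot m m + T.dot (p + m) (w.ap (p + m)) + l * T.dot p (q.ap p) +
    2 * e * T.dot p v * m.x

theorem tail_quad (w q : Sym ℝ) (v : T ℝ) (e l A : ℝ) (y1 y2 y3 c0 c1 : T ℝ) (b1 b2 : T ℝ × T ℝ)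
    (g1 g2 g3 g4 : ℝ) :
    A + tailP (ops w q v) e l ((⟨1, 0, 0⟩ : T ℝ), y1) b1 b2
      (c0 + (g1 • (⟨0, 1, 0⟩ : T ℝ) + -(g2 • (⟨0, 0, 1⟩ : T ℝ))), c1 + (g3 • y2 + -(g4 • y3))) =
    (A + tailP (ops w q v) e l ((⟨1, 0, 0⟩ : T ℝ), y1) b1 b2
      (c0 + ((0 : ℝ) • (⟨0, 1, 0⟩ : T ℝ) + -((0 : ℝ) • (⟨0, 0, 1⟩ : T ℝ))),
        c1 + ((0 : ℝ) • y2 + -((0 : ℝ) • y3)))) +
    g1 * (((A + tailP (ops w q v) e l ((⟨1, 0, 0⟩ : T ℝ), y1) b1 b2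
      (c0 + ((1 : ℝ) • (⟨0, 1, 0⟩ : T ℝ) + -((0 : ℝ) • (⟨0, 0, 1⟩ : T ℝ))),
        c1 + ((0 : ℝ) • y2 + -((0 : ℝ) • y3)))) -
      (A + tailP (ops w q v) e l ((⟨1, 0, 0⟩ : T ℝ), y1) b1 b2
      (c0 + ((-1 : ℝ) • (⟨0, 1, 0⟩ : T ℝ) + -((0 : ℝ) • (⟨0, 0, 1⟩ : T ℝ))),
        c1 + ((0 : ℝ) • y2 + -((0 : ℝ) • y3))))) / 2) +
    g2 * (((A + tailP (ops w q v) e l ((⟨1, 0, 0⟩ : T ℝ), y1) b1 b2
      (c0 + ((0 : ℝ) • (⟨0, 1, 0⟩ : T ℝ) + -((1 : ℝ) • (⟨0, 0, 1⟩ : T ℝ))),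
        c1 + ((0 : ℝ) • y2 + -((0 : ℝ) • y3)))) -
      (A + tailP (ops w q v) e l ((⟨1, 0, 0⟩ : T ℝ), y1) b1 b2
      (c0 + ((0 : ℝ) • (⟨0, 1, 0⟩ : T ℝ) + -((-1 : ℝ) • (⟨0, 0, 1⟩ : T ℝ))),
        c1 + ((0 : ℝ) • y2 + -((0 : ℝ) • y3))))) / 2) +
    g3 * (((A + tailP (ops w q v) e l ((⟨1, 0, 0⟩ : T ℝ), y1) b1 b2
      (c0 + ((0 : ℝ) • (⟨0, 1, 0⟩ : T ℝ) + -((0 : ℝ) • (⟨0, 0, 1⟩ : T ℝ))),
        c1 + ((1 : ℝ) • y2 + -((0 : ℝ) • y3)))) -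
      (A + tailP (ops w q v) e l ((⟨1, 0, 0⟩ : T ℝ), y1) b1 b2
      (c0 + ((0 : ℝ) • (⟨0, 1, 0⟩ : T ℝ) + -((0 : ℝ) • (⟨0, 0, 1⟩ : T ℝ))),
        c1 + ((-1 : ℝ) • y2 + -((0 : ℝ) • y3))))) / 2) +
    g4 * (((A + tailP (ops w q v) e l ((⟨1, 0, 0⟩ : T ℝ), y1) b1 b2
      (c0 + ((0 : ℝ) • (⟨0, 1, 0⟩ : T ℝ) + -((0 : ℝ) • (⟨0, 0, 1⟩ : T ℝ))),
        c1 + ((0 : ℝ) • y2 + -((1 : ℝ) • y3)))) -
      (A + tailP (ops w q v) e l ((⟨1, 0, 0⟩ : T ℝ), y1) b1 b2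
      (c0 + ((0 : ℝ) • (⟨0, 1, 0⟩ : T ℝ) + -((0 : ℝ) • (⟨0, 0, 1⟩ : T ℝ))),
        c1 + ((0 : ℝ) • y2 + -((-1 : ℝ) • y3))))) / 2) +
    3 * NN w q v e l (g1 • (⟨0, 0, 1⟩ : T ℝ) + g2 • (⟨0, 1, 0⟩ : T ℝ))
      (g3 • T.cr y1 y2 + -(g4 • T.cr y1 y3)) := by
  obtain ⟨wxx, wxy, wxz, wyy, wyz, wzz⟩ := w
  obtain ⟨qxx, qxy, qxz, qyy, qyz, qzz⟩ := q
  obtain ⟨v1, v2, v3⟩ := v
  obtain ⟨a1, a2, a3⟩ := y1
  obtain ⟨b1', b2', b3'⟩ := y2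
  obtain ⟨d1, d2, d3⟩ := y3
  obtain ⟨e1, e2, e3⟩ := c0
  obtain ⟨f1, f2, f3⟩ := c1
  obtain ⟨⟨k1, k2, k3⟩, ⟨k4, k5, k6⟩⟩ := b1
  obtain ⟨⟨m1, m2, m3⟩, ⟨m4, m5, m6⟩⟩ := b2
  simp only [tailP, three, two, pr, J, K, ops, T.dot, T.cr, Sym.ap, NN, T.add_x, T.add_y, T.add_z,
    T.neg_x, T.neg_y, T.neg_z, T.smul_x, T.smul_y, T.smul_z]
  ring


theorem frame_aux {x1 x2 x3 : T ℝ} (h : IsFrame x1 x2 x3) :
    T.dot x3 x3 = 1 ∧ T.dot x1 x3 = 0 ∧ T.dot x2 x3 = 0 ∧ T.cr x1 x3 = -x2 := by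
  obtain ⟨h11, h22, h12, rfl⟩ := h
  obtain ⟨a1, a2, a3⟩ := x1
  obtain ⟨b1, b2, b3⟩ := x2
  simp only [T.dot, T.cr] at *
  refine ⟨?_, ?_, ?_, ?_⟩
  · linear_combination (b1 ^ 2 + b2 ^ 2 + b3 ^ 2) * h11 + h22 -
      (a1 * b1 + a2 * b2 + a3 * b3) * h12
  · ring
  · ring
  · ext <;> simp only [T.neg_x, T.neg_y, T.neg_z]
    · linear_combination a1 * h12 - b1 * h11
    · linear_combination a2 * h12 - b2 * h11
    · linear_combination a3 * h12 - b3 * h11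

/-- lower bound for the quadratic form -/
theorem NN_lower {μ e l : ℝ} (hμ0 : 0 ≤ μ) (hμ : μ ≤ 1) (he0 : 0 ≤ e) (he : e ≤ 1 / 8)
    (hl0 : 0 ≤ l) (hl : l ≤ 1 / 8) {x1 x2 x3 : T ℝ} (h : IsFrame x1 x2 x3) (p m : T ℝ) :
    (1 / 2) * (T.dot p p + T.dot m m) ≤
      NN (frS (W0 μ) x1 x2 x3) (frS Q0 x1 x2 x3) (frV v0 x1 x2 x3) e l p m := by
  obtain ⟨h33, h13, h23, -⟩ := frame_aux h
  obtain ⟨h11, h22, h12, -⟩ := h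
  -- original coordinates
  have iso : ∀ u : T ℝ, T.dot (u.x • x1 + u.y • x2 + u.z • x3) (u.x • x1 + u.y • x2 + u.z • x3) =
      T.dot u u := by
    intro u
    have : T.dot (u.x • x1 + u.y • x2 + u.z • x3) (u.x • x1 + u.y • x2 + u.z • x3) =
        u.x ^ 2 * T.dot x1 x1 + u.y ^ 2 * T.dot x2 x2 + u.z ^ 2 * T.dot x3 x3 +
        2 * (u.x * u.y) * T.dot x1 x2 + 2 * (u.x * u.z) * T.dot x1 x3 +
        2 * (u.y * u.z) * T.dot x2 x3 := by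
      simp only [T.dot, T.add_x, T.add_y, T.add_z, T.smul_x, T.smul_y, T.smul_z]
      ring
    rw [this, h11, h22, h33, h12, h13, h23]
    simp only [T.dot]
    ring
  have quad : ∀ (w : Sym ℝ) (u : T ℝ), T.dot u ((frS w x1 x2 x3).ap u) =
      T.dot (u.x • x1 + u.y • x2 + u.z • x3) (w.ap (u.x • x1 + u.y • x2 + u.z • x3)) := by
    intro w u
    obtain ⟨wxx, wxy, wxz, wyy, wyz, wzz⟩ := w
    simp only [T.dot, Sym.ap, frS, T.add_x, T.add_y, T.add_z, T.smul_x, T.smul_y, T.smul_z]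
    ring
  have lin : ∀ u : T ℝ, T.dot u (frV v0 x1 x2 x3) =
      T.dot (u.x • x1 + u.y • x2 + u.z • x3) v0 := by
    intro u
    simp only [T.dot, frV, T.add_x, T.add_y, T.add_z, T.smul_x, T.smul_y, T.smul_z]
    ring
  unfold NN
  rw [quad, quad, lin]
  have i1 := iso (p + m)
  have i2 := iso p
  have hm : m.x ^ 2 ≤ T.dot m m := by
    simp only [T.dot]; nlinarith [sq_nonneg m.y, sq_nonneg m.z]
  generalize ((p + m).x • x1 + (p + m).y • x2 + (p + m).z • x3) = U at i1 ⊢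
  generalize (p.x • x1 + p.y • x2 + p.z • x3) = P at i2 ⊢
  rw [← i2]
  have b1 : 0 ≤ T.dot U ((W0 μ).ap U) := by
    simp only [T.dot, Sym.ap, W0]
    nlinarith [sq_nonneg (U.x + U.z), sq_nonneg (U.x - U.z), sq_nonneg U.x, sq_nonneg U.y,
      sq_nonneg U.z, mul_nonneg hμ0 (sq_nonneg (U.x + U.z)),
      mul_nonneg (sub_nonneg.2 hμ) (add_nonneg (sq_nonneg U.x) (sq_nonneg U.z))]
  have b2 : -(T.dot P P) ≤ T.dot P (Q0.ap P) := by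
    simp only [T.dot, Sym.ap, Q0]
    nlinarith [sq_nonneg P.x, sq_nonneg P.y, sq_nonneg P.z]
  have b3 : -(2 * T.dot P P + m.x ^ 2) ≤ 2 * (T.dot P v0 * m.x) := by
    simp only [T.dot, v0]
    nlinarith [sq_nonneg (P.x + P.y + m.x), sq_nonneg (P.x - P.y), sq_nonneg P.z]
  have hP : 0 ≤ T.dot P P := by
    simp only [T.dot]; nlinarith [sq_nonneg P.x, sq_nonneg P.y, sq_nonneg P.z]
  have b4 : -(1 / 8 * T.dot P P) ≤ l * T.dot P (Q0.ap P) := by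
    have : l * -(T.dot P P) ≤ l * T.dot P (Q0.ap P) := mul_le_mul_of_nonneg_left b2 hl0
    nlinarith
  have b5 : -(1 / 8 * (2 * T.dot P P + T.dot m m)) ≤ 2 * e * T.dot P v0 * m.x := by
    have : e * -(2 * T.dot P P + m.x ^ 2) ≤ e * (2 * (T.dot P v0 * m.x)) :=
      mul_le_mul_of_nonneg_left b3 he0
    nlinarith [sq_nonneg m.x]
  have hM : 0 ≤ T.dot m m := (sq_nonneg m.x).trans hm
  linarith

/-- the same plane with another `γ'` -/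
def dg (d : DD) (a b c e : ℝ) : DD :=
  ![d 0, d 1, d 2, d 3, d 4, d 5, d 6, d 7, d 8, d 9, d 10, d 11, d 12, d 13, d 14, d 15, a, b, c, e]

theorem isPl_dg {d : DD} (h : IsPl d) (a b c e : ℝ) : IsPl (dg d a b c e) :=
  ⟨h.fx, h.fy, h.ha, h.hb, h.ca0, h.cb0, h.hs, h.hz⟩

theorem dist0_nonneg {d : DD} (h : IsPl d) : 0 ≤ dist0 d := by
  have hy3 := (frame_aux h.fy).1
  have hz1 : (dy3 d).z ^ 2 ≤ 1 := by
    simp only [T.dot] at hy3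
    nlinarith [sq_nonneg (dy3 d).x, sq_nonneg (dy3 d).y]
  unfold dist0 gg
  nlinarith [sq_nonneg (d 13), sq_nonneg (d 15), sq_nonneg (d 16), sq_nonneg (d 17),
    sq_nonneg (d 18), sq_nonneg (d 19)]

/-- the operations at a plane -/
def oD (μ : ℝ) (d : DD) : Ops ℝ (T ℝ) :=
  ops (frS (W0 μ) (dx1 d) (dx2 d) (dx3 d)) (frS Q0 (dx1 d) (dx2 d) (dx3 d))
    (frV v0 (dx1 d) (dx2 d) (dx3 d))
/-- the point -/
def zD (d : DD) : T ℝ × T ℝ := ((⟨1, 0, 0⟩ : T ℝ), dy1 d)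
/-- first covector -/
def aD (d : DD) : T ℝ × T ℝ := (d 12 • (⟨0, 1, 0⟩ : T ℝ), d 13 • dy3 d)
/-- second covector -/
def bD (d : DD) : T ℝ × T ℝ := (d 15 • (⟨0, 0, 1⟩ : T ℝ), d 14 • dy2 d)

theorem FD_tail (μ ε l : ℝ) (d : DD) :
    FD μ ε l d = headP (oD μ d) ε l (zD d) (aD d) (bD d) +
      tailP (oD μ d) ε l ((⟨1, 0, 0⟩ : T ℝ), dy1 d)
        (W1 (oD μ d) ε l (zD d) (Wz (oD μ d) ε l (zD d) (aD d)) (bD d))
        (W1 (oD μ d) ε l (zD d) (Wz (oD μ d) ε l (zD d) (bD d)) (aD d))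
        (T.cr ((frS (W0 μ) (dx1 d) (dx2 d) (dx3 d)).ap ⟨0, 0, 1⟩) ⟨0, 1, 0⟩ +
          (d 16 • (⟨0, 1, 0⟩ : T ℝ) + -(d 17 • (⟨0, 0, 1⟩ : T ℝ))),
        -T.cr ((frS (W0 μ) (dx1 d) (dx2 d) (dx3 d)).ap (dy3 d)) (dy2 d) +
          (d 18 • dy2 d + -(d 19 • dy3 d))) := by
  unfold FD FP PPn
  rw [PP_eq_tail]
  rfl

theorem FD_dg (μ ε l : ℝ) (d : DD) (a b c e : ℝ) :
    FD μ ε l (dg d a b c e) = headP (oD μ d) ε l (zD d) (aD d) (bD d) +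
      tailP (oD μ d) ε l ((⟨1, 0, 0⟩ : T ℝ), dy1 d)
        (W1 (oD μ d) ε l (zD d) (Wz (oD μ d) ε l (zD d) (aD d)) (bD d))
        (W1 (oD μ d) ε l (zD d) (Wz (oD μ d) ε l (zD d) (bD d)) (aD d))
        (T.cr ((frS (W0 μ) (dx1 d) (dx2 d) (dx3 d)).ap ⟨0, 0, 1⟩) ⟨0, 1, 0⟩ +
          (a • (⟨0, 1, 0⟩ : T ℝ) + -(b • (⟨0, 0, 1⟩ : T ℝ))),
        -T.cr ((frS (W0 μ) (dx1 d) (dx2 d) (dx3 d)).ap (dy3 d)) (dy2 d) +
          (c • dy2 d + -(e • dy3 d))) := by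
  rw [FD_tail]
  have h1 : dx1 (dg d a b c e) = dx1 d := rfl
  have h2 : dx2 (dg d a b c e) = dx2 d := rfl
  have h3 : dx3 (dg d a b c e) = dx3 d := rfl
  have h4 : dy1 (dg d a b c e) = dy1 d := rfl
  have h5 : dy2 (dg d a b c e) = dy2 d := rfl
  have h6 : dy3 (dg d a b c e) = dy3 d := rfl
  have h7 : oD μ (dg d a b c e) = oD μ d := rfl
  have h8 : zD (dg d a b c e) = zD d := rfl
  have h9 : aD (dg d a b c e) = aD d := rfl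
  have h10 : bD (dg d a b c e) = bD d := rfl
  have h11 : (dg d a b c e) 16 = a := rfl
  have h12 : (dg d a b c e) 17 = b := rfl
  have h13 : (dg d a b c e) 18 = c := rfl
  have h14 : (dg d a b c e) 19 = e := rfl
  rw [h1, h2, h3, h4, h5, h6, h7, h8, h9, h10, h11, h12, h13, h14]

/-- the expansion of the curvature polynomial in `γ'` -/
theorem FD_quad (μ ε l : ℝ) (d : DD) (hy : IsFrame (dy1 d) (dy2 d) (dy3 d)) :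
    FD μ ε l d = FD μ ε l (dg d 0 0 0 0) +
      d 16 * ((FD μ ε l (dg d 1 0 0 0) - FD μ ε l (dg d (-1) 0 0 0)) / 2) +
      d 17 * ((FD μ ε l (dg d 0 1 0 0) - FD μ ε l (dg d 0 (-1) 0 0)) / 2) +
      d 18 * ((FD μ ε l (dg d 0 0 1 0) - FD μ ε l (dg d 0 0 (-1) 0)) / 2) +
      d 19 * ((FD μ ε l (dg d 0 0 0 1) - FD μ ε l (dg d 0 0 0 (-1))) / 2) +
      3 * NN (frS (W0 μ) (dx1 d) (dx2 d) (dx3 d)) (frS Q0 (dx1 d) (dx2 d) (dx3 d))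
        (frV v0 (dx1 d) (dx2 d) (dx3 d)) ε l ⟨0, d 17, d 16⟩
        (d 18 • dy3 d + d 19 • dy2 d) := by
  obtain ⟨-, -, -, h13⟩ := frame_aux hy
  simp only [FD_dg]
  rw [FD_tail]
  generalize headP (oD μ d) ε l (zD d) (aD d) (bD d) = A
  generalize (W1 (oD μ d) ε l (zD d) (Wz (oD μ d) ε l (zD d) (aD d)) (bD d)) = b1
  generalize (W1 (oD μ d) ε l (zD d) (Wz (oD μ d) ε l (zD d) (bD d)) (aD d)) = b2
  have e1 : (⟨0, d 17, d 16⟩ : T ℝ) = d 16 • (⟨0, 0, 1⟩ : T ℝ) + d 17 • (⟨0, 1, 0⟩ : T ℝ) := by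
    ext <;> simp
  have e2 : d 18 • dy3 d + d 19 • dy2 d =
      d 18 • T.cr (dy1 d) (dy2 d) + -(d 19 • T.cr (dy1 d) (dy3 d)) := by
    rw [h13]
    ext <;> simp [dy3]
  rw [e1, e2]
  exact tail_quad _ _ _ _ _ _ _ _ _ _ _ _ _ _ _ _ _

theorem BIG (hC : St_CONT1) (hK : St_CPT) : St_BIG := by
  have hcpt : IsCompact ((Set.Icc (0 : ℝ) 1 ×ˢ (Set.Icc (0 : ℝ) 1 ×ˢ (Set.Icc (0 : ℝ) 1 ×ˢ
      {d : DD | IsPl d ∧ gg d ≤ 1 ∧ 0 ≤ dist0 d})))) :=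
    isCompact_Icc.prod (isCompact_Icc.prod (isCompact_Icc.prod (hK 1 0)))
  obtain ⟨C, hC'⟩ := hcpt.exists_bound_of_continuousOn (Continuous.continuousOn hC)
  have hbd : ∀ (μ ε l : ℝ) (d : DD), 0 ≤ μ → μ ≤ 1 → 0 ≤ ε → ε ≤ 1 → 0 ≤ l → l ≤ 1 → IsPl d →
      gg d ≤ 1 → |FD μ ε l d| ≤ |C| := by
    intro μ ε l d h1 h2 h3 h4 h5 h6 h7 h8
    have := hC' (μ, ε, l, d) ⟨⟨h1, h2⟩, ⟨h3, h4⟩, ⟨h5, h6⟩, h7, h8, dist0_nonneg h7⟩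
    exact this.trans (le_abs_self C)
  refine ⟨|C| + 4 * |C| ^ 2 + 1, 1 / 8, by positivity, by norm_num, ?_⟩
  intro μ ε l d hμ0 hμ hε0 hε hl0 hl hd hG
  have B : ∀ a b c e : ℝ, a ^ 2 + b ^ 2 + c ^ 2 + e ^ 2 ≤ 1 →
      |FD μ ε l (dg d a b c e)| ≤ |C| := by
    intro a b c e h
    exact hbd μ ε l _ hμ0 (by linarith) hε0 (by linarith) hl0 (by linarith) (isPl_dg hd a b c e) h
  have key := FD_quad μ ε l d hd.fy
  have hN := NN_lower hμ0 (hμ.trans (by norm_num)) hε0 hε hl0 hl hd.fx (⟨0, d 17, d 16⟩ : T ℝ)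
    (d 18 • dy3 d + d 19 • dy2 d)
  have hS : T.dot (⟨0, d 17, d 16⟩ : T ℝ) ⟨0, d 17, d 16⟩ +
      T.dot (d 18 • dy3 d + d 19 • dy2 d) (d 18 • dy3 d + d 19 • dy2 d) = gg d := by
    obtain ⟨h33, -, h23, -⟩ := frame_aux hd.fy
    have h22 := hd.fy.d22
    have : T.dot (d 18 • dy3 d + d 19 • dy2 d) (d 18 • dy3 d + d 19 • dy2 d) =
        d 18 ^ 2 * T.dot (dy3 d) (dy3 d) + d 19 ^ 2 * T.dot (dy2 d) (dy2 d) +
        2 * (d 18 * d 19) * T.dot (dy2 d) (dy3 d) := by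
      simp only [T.dot, T.add_x, T.add_y, T.add_z, T.smul_x, T.smul_y, T.smul_z]
      ring
    rw [this, h33, h23, h22]
    simp only [T.dot, gg]
    ring
  rw [hS] at hN
  have L : ∀ x a b : ℝ, |a| ≤ |C| → |b| ≤ |C| → -(|C| ^ 2 + x ^ 2 / 4) ≤ x * ((a - b) / 2) := by
    intro x a b ha hb
    have h1 : |(a - b) / 2| ≤ |C| := by
      rw [abs_div, abs_two]
      have := abs_sub a b
      linarith
    have h2 : |x * ((a - b) / 2)| ≤ |x| * |C| := by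
      rw [abs_mul]
      exact mul_le_mul_of_nonneg_left h1 (abs_nonneg x)
    have h3 := neg_abs_le (x * ((a - b) / 2))
    have h4 : |x| * |C| ≤ |C| ^ 2 + x ^ 2 / 4 := by
      have := sq_abs x
      nlinarith [sq_nonneg (|C| - |x| / 2)]
    linarith
  have l1 := L (d 16) _ _ (B 1 0 0 0 (by norm_num)) (B (-1) 0 0 0 (by norm_num))
  have l2 := L (d 17) _ _ (B 0 1 0 0 (by norm_num)) (B 0 (-1) 0 0 (by norm_num))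
  have l3 := L (d 18) _ _ (B 0 0 1 0 (by norm_num)) (B 0 0 (-1) 0 (by norm_num))
  have l4 := L (d 19) _ _ (B 0 0 0 1 (by norm_num)) (B 0 0 0 (-1) (by norm_num))
  have l0 := (abs_le.1 (B 0 0 0 0 (by norm_num))).1
  have hgg : gg d = d 16 ^ 2 + d 17 ^ 2 + d 18 ^ 2 + d 19 ^ 2 := rfl
  rw [key]
  have hC0 := abs_nonneg C
  nlinarith

end H902HO
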