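import Pool.Agent.H902R2.HO.Asm
import Pool.Agent.H902R2.HO.Big
import Pool.Agent.H498R2.HO.ID1
import Pool.Agent.H498R2.HO.ID2
import Pool.Agent.H498R2.HO.ID3
import Pool.Agent.H66R2.HO.T5
import Pool.Agent.H655R2.HO.CH
import Pool.Agent.H605R2.HO.LOC
import Pool.Agent.H503R2.HO.FR
import Pool.Agent.H930R2.HO.HPOS
import Pool.Agent.H930R2.HO.CONT
import Pool.Agent.H790R2.HO.CPT
import Pool.Agent.H989R2.HO.Glue

/-!
ROOM HO (helper902): the final inequality and the theorem.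
-/

namespace H902HO

/-- the final inequality in coordinates -/
theorem goal : St_GOAL :=
  goal_of H498HO.ID3 H503HO.FR2 H655HO.CH (H605HO.LOC H498HO.ID1)
    (H930HO.HPOS H498HO.ID2 H503HO.FR1 H503HO.FR3 H930HO.CONT2) (BIG H930HO.CONT1 H790HO.CPT)
    (H790HO.OFF0 H66HO.T5 H503HO.FR1 H930HO.CONT1) (H790HO.OFF1 H930HO.CONT1)

/-- the theorem -/
theorem hopfYes : Pool.Agent.H893R5.HO.HopfYes := H989H.hopfYes_of_goal goal

end H902HO
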