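import Pool.Agent.H902R2.HO.Stubs

/-!
ROOM HO (helper902): exact statements of the compactness part.
-/

open Topology

namespace H902HO

/-- the curvature polynomial of the frozen metric, coordinates of the frame `x1 x2 x3` -/
def FP (μ ε l : ℝ) (x1 x2 x3 y1 y2 y3 : T ℝ) (ca sa cb sb g1 g2 g3 g4 : ℝ) : ℝ :=
  PPn 0 1 (frS (W0 μ) x1 x2 x3) (frS Q0 x1 x2 x3) (frV v0 x1 x2 x3) ε l y1 y2 y3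
    ca sa cb sb g1 g2 g3 g4

/-- the same in the chart -/
noncomputable def FPc (μ ε l : ℝ) (x1 x2 x3 : T ℝ) (c s o1 o2 r k g1 g2 g3 g4 : ℝ) : ℝ :=
  PPc 0 1 (frS (W0 μ) x1 x2 x3) (frS Q0 x1 x2 x3) (frV v0 x1 x2 x3) ε l c s
    (√(1 - o1 ^ 2)) o1 (√(1 - o2 ^ 2)) o2 (√(1 - r ^ 2)) r (√(1 - k ^ 2)) k g1 g2 g3 g4

/-- the coefficient of `t²` -/
noncomputable def Hc (μ lam : ℝ) (x1 x2 x3 : T ℝ) (c s o1 o2 r k g1 g2 g3 g4 e : ℝ) : ℝ :=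
  (ser (frS (W0 μ) x1 x2 x3) (frS Q0 x1 x2 x3) (frV v0 x1 x2 x3) lam c s
    o1 o2 r k g1 g2 g3 g4 e).c

/-- the contribution of `lam` -/
def GG (n : T ℝ) : ℝ :=
  3 * n.x ^ 4 + n.z ^ 4 + 2 * (3 * n.x ^ 2 - n.z ^ 2) * (n.x + n.y) * (n.y - n.x)

/-- 22 + 4 real parameters: `x₁,x₂` (0-5), `y₁,y₂` (6-11), `ca sa cb sb` (12-15),
`g₁..g₄` (16-19) -/
abbrev DD := Fin 20 → ℝ

/-- first frame -/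
def dx1 (d : DD) : T ℝ := ⟨d 0, d 1, d 2⟩
/-- first frame -/
def dx2 (d : DD) : T ℝ := ⟨d 3, d 4, d 5⟩
/-- first frame -/
def dx3 (d : DD) : T ℝ := T.cr (dx1 d) (dx2 d)
/-- second frame -/
def dy1 (d : DD) : T ℝ := ⟨d 6, d 7, d 8⟩
/-- second frame -/
def dy2 (d : DD) : T ℝ := ⟨d 9, d 10, d 11⟩
/-- second frame -/
def dy3 (d : DD) : T ℝ := T.cr (dy1 d) (dy2 d)

/-- the frozen curvature polynomial as a function of the parameters -/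
def FD (μ ε l : ℝ) (d : DD) : ℝ :=
  FP μ ε l (dx1 d) (dx2 d) (dx3 d) (dy1 d) (dy2 d) (dy3 d) (d 12) (d 13) (d 14) (d 15)
    (d 16) (d 17) (d 18) (d 19)

/-- `|γ'|²` -/
def gg (d : DD) : ℝ := d 16 ^ 2 + d 17 ^ 2 + d 18 ^ 2 + d 19 ^ 2

/-- the (squared) distance from the zero set -/
def dist0 (d : DD) : ℝ := 2 * (1 - (dy3 d).z ^ 2) + d 13 ^ 2 + d 15 ^ 2 + gg d

/-- all planes in normal form -/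
structure IsPl (d : DD) : Prop where
  fx : IsFrame (dx1 d) (dx2 d) (dx3 d)
  fy : IsFrame (dy1 d) (dy2 d) (dy3 d)
  ha : d 12 ^ 2 + d 13 ^ 2 = 1
  hb : d 14 ^ 2 + d 15 ^ 2 = 1
  ca0 : 0 ≤ d 12
  cb0 : 0 ≤ d 14
  hs : d 15 ^ 2 ≤ d 12 ^ 2
  hz : 0 ≤ (dy3 d).z

/-- TASK CONT1 -/
def St_CONT1 : Prop := Continuous (fun p : ℝ × ℝ × ℝ × DD => FD p.1 p.2.1 p.2.2.1 p.2.2.2)

/-- TASK CONT2: `lam = 0`; parameters `x₁,x₂` (0-5), `c s` (6,7), directions (8-16) -/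
def St_CONT2 : Prop := Continuous (fun p : ℝ × (Fin 17 → ℝ) =>
  Hc p.1 0 ⟨p.2 0, p.2 1, p.2 2⟩ ⟨p.2 3, p.2 4, p.2 5⟩
    (T.cr ⟨p.2 0, p.2 1, p.2 2⟩ ⟨p.2 3, p.2 4, p.2 5⟩)
    (p.2 6) (p.2 7) (p.2 8) (p.2 9) (p.2 10) (p.2 11) (p.2 12) (p.2 13) (p.2 14) (p.2 15) (p.2 16))

/-- TASK CH: the chart -/
def St_CH : Prop := ∀ y1 y2 y3 : T ℝ, IsFrame y1 y2 y3 → 0 < y3.z →
  ∃ c s o1 o2 : ℝ, c ^ 2 + s ^ 2 = 1 ∧ o1 ^ 2 ≤ 1 - y3.z ^ 2 ∧ o2 ^ 2 ≤ 1 - y3.z ^ 2 ∧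
    y1 = cy1 0 c s (√(1 - o1 ^ 2)) o1 (√(1 - o2 ^ 2)) o2 ∧
    y2 = cy2 0 c s (√(1 - o1 ^ 2)) o1 (√(1 - o2 ^ 2)) o2 ∧
    y3 = cy3 (√(1 - o1 ^ 2)) o1 (√(1 - o2 ^ 2)) o2

/-- TASK LOC: uniform expansion in the chart -/
def St_LOC : Prop := ∀ Lam : ℝ, 0 ≤ Lam → ∃ C : ℝ, 0 < C ∧ ∀ (μ lam : ℝ) (x1 x2 x3 : T ℝ)
  (c s o1 o2 r k g1 g2 g3 g4 e t : ℝ), 0 ≤ μ → μ ≤ 1 → 0 ≤ lam → lam ≤ Lam →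
  IsFrame x1 x2 x3 → c ^ 2 + s ^ 2 = 1 →
  o1 ^ 2 + o2 ^ 2 + r ^ 2 + k ^ 2 + g1 ^ 2 + g2 ^ 2 + g3 ^ 2 + g4 ^ 2 + e ^ 2 = 1 →
  0 ≤ t → t ≤ 1 →
  |FPc μ (e * t) (lam * (e * t) ^ 2) x1 x2 x3 c s (o1 * t) (o2 * t) (r * t) (k * t)
      (g1 * t) (g2 * t) (g3 * t) (g4 * t) -
    t ^ 2 * Hc μ lam x1 x2 x3 c s o1 o2 r k g1 g2 g3 g4 e| ≤ C * t ^ 3

/-- TASK HPOS: positivity of the quadratic part for small `μ` -/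
def St_HPOS : Prop := ∃ μ₁ κ : ℝ, 0 < μ₁ ∧ μ₁ ≤ 1 ∧ 0 < κ ∧ ∀ (μ : ℝ) (x1 x2 x3 : T ℝ)
  (c s o1 o2 r k g1 g2 g3 g4 e : ℝ), 0 ≤ μ → μ ≤ μ₁ →
  IsFrame x1 x2 x3 → c ^ 2 + s ^ 2 = 1 →
  o1 ^ 2 + o2 ^ 2 + r ^ 2 + k ^ 2 + g1 ^ 2 + g2 ^ 2 + g3 ^ 2 + g4 ^ 2 + e ^ 2 = 1 →
  κ ≤ Hc μ 0 x1 x2 x3 c s o1 o2 r k g1 g2 g3 g4 e + 4 * (1 / 128) * e ^ 2 * GG x3

/-- TASK BIG: positivity for large `γ'` -/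
def St_BIG : Prop := ∃ G η : ℝ, 0 < G ∧ 0 < η ∧ ∀ (μ ε l : ℝ) (d : DD), 0 ≤ μ → μ ≤ η →
  0 ≤ ε → ε ≤ η → 0 ≤ l → l ≤ η → IsPl d → G ≤ gg d → 0 < FD μ ε l d

/-- TASK CPT: the set of planes with `gg ≤ G`, `ρ ≤ dist0` is compact -/
def St_CPT : Prop := ∀ G ρ : ℝ, IsCompact {d : DD | IsPl d ∧ gg d ≤ G ∧ ρ ≤ dist0 d}

/-- TASK OFF0 -/
def St_OFF0 : Prop := ∀ G ρ : ℝ, 0 < ρ → ∃ μ₂ : ℝ, 0 < μ₂ ∧ ∀ μ, 0 ≤ μ → μ ≤ μ₂ → ∀ d : DD,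
  IsPl d → gg d ≤ G → ρ ≤ dist0 d → 0 < FD μ 0 0 d

/-- TASK OFF1 -/
def St_OFF1 : Prop := ∀ (G ρ μ lam : ℝ), (∀ d : DD, IsPl d → gg d ≤ G → ρ ≤ dist0 d →
    0 < FD μ 0 0 d) →
  ∃ ε₁ : ℝ, 0 < ε₁ ∧ ∀ ε, 0 ≤ ε → ε ≤ ε₁ → ∀ d : DD, IsPl d → gg d ≤ G → ρ ≤ dist0 d →
    0 < FD μ ε (lam * ε ^ 2) d

end H902HO
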